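import Mathlib

/-! MP_8215f0_lc, module D1: bounded left-invariant length on a Polish group (Birkhoff-Kakutani). -/

set_option autoImplicit false
open Filter Topology
open scoped NNReal

namespace Pool.Agent.Helper68UH

/-- a fast decreasing symmetric basis at `1` -/
theorem exists_basis (G : Type) [TopologicalSpace G] [Group G] [IsTopologicalGroup G]
    [FirstCountableTopology G] :
    ∃ V : ℕ → Set G, (∀ n, V n ∈ 𝓝 (1 : G)) ∧ (∀ n, ∀ x ∈ V n, x⁻¹ ∈ V n) ∧
      (∀ n, ∀ x ∈ V (n + 1), ∀ y ∈ V (n + 1), ∀ z ∈ V (n + 1), x * y * z ∈ V n) ∧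
      (∀ W ∈ 𝓝 (1 : G), ∃ n, V n ⊆ W) := by
  obtain ⟨B, hB⟩ := (𝓝 (1 : G)).exists_antitone_basis
  have step : ∀ (U : Set G) (n : ℕ), U ∈ 𝓝 (1 : G) → ∃ V ∈ 𝓝 (1 : G), (∀ x ∈ V, x⁻¹ ∈ V) ∧
      (∀ x ∈ V, ∀ y ∈ V, ∀ z ∈ V, x * y * z ∈ U) ∧ V ⊆ B n := by
    intro U n hU
    obtain ⟨V, hV, hV4⟩ := exists_nhds_one_split4 hU
    have hBn : B n ∈ 𝓝 (1 : G) := hB.toHasBasis.mem_of_mem trivial
    have h1 : V ∩ B n ∈ 𝓝 (1 : G) := inter_mem hV hBn
    have h2 : (V ∩ B n)⁻¹ ∈ 𝓝 (1 : G) := inv_mem_nhds_one G h1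
    refine ⟨(V ∩ B n) ∩ (V ∩ B n)⁻¹, inter_mem h1 h2, ?_, ?_, fun x hx => hx.1.2⟩
    · rintro x ⟨hx1, hx2⟩
      exact ⟨hx2, by rw [Set.mem_inv, inv_inv]; exact hx1⟩
    · intro x hx y hy z hz
      have := hV4 hx.1.1 hy.1.1 hz.1.1 (mem_of_mem_nhds hV)
      simpa using this
  choose! F hF1 hF2 hF3 hF4 using step
  set V : ℕ → Set G := fun n => Nat.rec Set.univ (fun n U => F U n) n with hV
  have hVs : ∀ n, V (n + 1) = F (V n) n := fun n => rfl
  have hVn : ∀ n, V n ∈ 𝓝 (1 : G) := by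
    intro n
    induction n with
    | zero => exact univ_mem
    | succ n ih => rw [hVs]; exact hF1 _ _ ih
  refine ⟨V, hVn, ?_, ?_, ?_⟩
  · intro n
    cases n with
    | zero => intro x _; trivial
    | succ n => rw [hVs]; exact hF2 _ _ (hVn n)
  · intro n
    rw [hVs]
    exact hF3 _ _ (hVn n)
  · intro W hW
    obtain ⟨n, -, hn⟩ := hB.toHasBasis.mem_iff.1 hW
    exact ⟨n + 1, by rw [hVs]; exact (hF4 _ _ (hVn n)).trans hn⟩

/-- Module D1: bounded left-invariant length on a Polish group (Birkhoff-Kakutani). -/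
theorem exists_length (G : Type) [TopologicalSpace G] [Group G] [IsTopologicalGroup G]
    [PolishSpace G] :
    ∃ L : G → ℝ, L 1 = 0 ∧ (∀ g, 0 ≤ L g) ∧ (∀ g, L g < 1 / 2) ∧ (∀ g, L g⁻¹ = L g) ∧
      (∀ g h, L (g * h) ≤ L g + L h) ∧ Continuous L ∧
      (∀ W ∈ 𝓝 (1 : G), ∃ ε > 0, ∀ g, L g < ε → g ∈ W) := by
  classical
  obtain ⟨V, hVn, hVi, hV3, hVb⟩ := exists_basis G
  have h1V : ∀ n, (1 : G) ∈ V n := fun n => mem_of_mem_nhds (hVn n)
  have hVs : ∀ n, V (n + 1) ⊆ V n := by
    intro n x hx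
    have := hV3 n x hx 1 (h1V _) 1 (h1V _)
    simpa using this
  have hVa : Antitone V := antitone_nat_of_succ_le hVs
  set f : G → ℝ≥0 := fun g => if h : ∃ n, g ∉ V n then (1 / 2) ^ Nat.find h else 0 with hf
  have hr : (1 / 2 : ℝ≥0) ∈ Set.Ioo (0 : ℝ≥0) 1 :=
    ⟨half_pos one_pos, NNReal.half_lt_self one_ne_zero⟩
  have hle_f : ∀ {g : G} {n : ℕ}, (1 / 2) ^ n ≤ f g ↔ g ∉ V n := by
    intro g n
    simp only [hf]
    split_ifs with h
    · rw [(pow_right_strictAnti₀ hr.1 hr.2).le_iff_ge, Nat.find_le_iff]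
      exact ⟨fun ⟨m, hmn, hm⟩ hn => hm (hVa hmn hn), fun h => ⟨n, le_rfl, h⟩⟩
    · push Not at h
      simp only [h, not_true, (pow_pos hr.1 _).not_ge]
  have hf1 : f 1 = 0 := by
    simp only [hf]
    rw [dif_neg]
    push Not
    exact h1V
  have hfi : ∀ g, f g⁻¹ = f g := by
    intro g
    have e : ∀ n, (g⁻¹ ∉ V n) ↔ (g ∉ V n) := by
      intro n
      constructor
      · intro h h'; exact h (hVi n g h')
      · intro h h'; exact h (by simpa using hVi n _ h')
    simp only [hf, e]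
  have hf_le : ∀ g, f g ≤ 1 := by
    intro g
    simp only [hf]
    split_ifs with h
    · exact pow_le_one₀ (by positivity) hr.2.le
    · exact zero_le_one
  have hf3 : ∀ x y z, f (x * y * z) ≤ 2 * max (f x) (max (f y) (f z)) := by
    intro x y z
    by_cases H : ∃ n, x * y * z ∉ V n
    · refine (dif_pos H).trans_le ?_
      rw [← div_le_iff₀' zero_lt_two, ← mul_one_div (_ ^ _), ← pow_succ]
      simp only [le_max_iff, hle_f, ← not_and_or]
      rintro ⟨h₁₂, h₂₃, h₃₄⟩
      exact Nat.find_spec H (hV3 _ _ h₁₂ _ h₂₃ _ h₃₄)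
    · exact (dif_neg H).trans_le zero_le
  set d : G → G → ℝ≥0 := fun x y => f (x⁻¹ * y) with hd
  have hd0 : ∀ x, d x x = 0 := by intro x; simp only [hd, inv_mul_cancel]; exact hf1
  have hdc : ∀ x y, d x y = d y x := by
    intro x y
    simp only [hd]
    rw [← hfi]
    congr 1
    group
  set I := PseudoMetricSpace.ofPreNNDist d hd0 hdc with hI
  set D : G → G → ℝ := fun x y => @dist G I.toDist x y with hD
  have hDle : ∀ x y, D x y ≤ f (x⁻¹ * y) := fun x y => PseudoMetricSpace.dist_ofPreNNDist_le d hd0 hdc x y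
  have hfD : ∀ x y, (f (x⁻¹ * y) : ℝ) ≤ 2 * D x y := by
    intro x y
    refine PseudoMetricSpace.le_two_mul_dist_ofPreNNDist d hd0 hdc (fun x₁ x₂ x₃ x₄ => ?_) x y
    have e : x₁⁻¹ * x₄ = (x₁⁻¹ * x₂) * (x₂⁻¹ * x₃) * (x₃⁻¹ * x₄) := by group
    simp only [hd]
    rw [e]
    exact hf3 _ _ _
  have hDinv : ∀ g x y, D (g * x) (g * y) = D x y := by
    intro g x y
    have hdi : ∀ x y, d (g * x) (g * y) = d x y := by
      intro x y
      simp only [hd]
      congr 1
      group
    have hz : ∀ l m : List G, List.zipWith d (l.map (g * ·)) (m.map (g * ·)) = List.zipWith d l m := by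
      intro l
      induction l with
      | nil => intro m; simp
      | cons a l ih =>
        intro m
        cases m with
        | nil => simp
        | cons b m => simp only [List.map_cons, List.zipWith_cons_cons, hdi, ih]
    change ((⨅ l : List G, ((g * x :: l).zipWith d (l ++ [g * y])).sum : ℝ≥0) : ℝ) =
      ((⨅ l : List G, ((x :: l).zipWith d (l ++ [y])).sum : ℝ≥0) : ℝ)
    congr 1
    symm
    refine Function.Surjective.iInf_congr (fun l : List G => l.map (g * ·)) ?_ ?_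
    · intro l
      refine ⟨l.map (g⁻¹ * ·), ?_⟩
      simp [List.map_map, Function.comp_def]
    · intro l
      have := hz (x :: l) (l ++ [y])
      rw [List.map_cons, List.map_append] at this
      rw [← this]
      simp
  have hD0 : ∀ x, D x x = 0 := fun x => I.dist_self x
  have hDc : ∀ x y, D x y = D y x := fun x y => I.dist_comm x y
  have hDt : ∀ x y z, D x z ≤ D x y + D y z := fun x y z => I.dist_triangle x y z
  have hDn : ∀ x y, 0 ≤ D x y := fun x y => @dist_nonneg G I x y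
  set L : G → ℝ := fun g => D 1 g / 4 with hL
  have hLi : ∀ g, L g⁻¹ = L g := by
    intro g
    simp only [hL]
    rw [← hDinv g 1 g⁻¹, mul_one, mul_inv_cancel, hDc]
  have hLt : ∀ g h, L (g * h) ≤ L g + L h := by
    intro g h
    simp only [hL]
    have h1 := hDt 1 g (g * h)
    have h2 := hDinv g 1 h
    rw [mul_one] at h2
    rw [h2] at h1
    linarith
  have hLf : ∀ g, L g ≤ f g / 4 := by
    intro g
    simp only [hL]
    have := hDle 1 g
    rw [inv_one, one_mul] at this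
    linarith
  have hL0 : Tendsto L (𝓝 1) (𝓝 0) := by
    rw [Metric.tendsto_nhds]
    intro ε hε
    obtain ⟨n, hn⟩ := exists_pow_lt_of_lt_one hε (by norm_num : (1 / 2 : ℝ) < 1)
    refine mem_of_superset (hVn n) fun x hx => ?_
    have h1 : f x < (1 / 2) ^ n := by
      rw [← not_le, hle_f, not_not]; exact hx
    have h2 : (f x : ℝ) < (1 / 2) ^ n := by
      have := NNReal.coe_lt_coe.2 h1
      simpa using this
    have h3 := hLf x
    have h4 : 0 ≤ L x := by simp only [hL]; have := hDn 1 x; positivity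
    have h5 : (0 : ℝ) ≤ f x := NNReal.coe_nonneg _
    change dist (L x) 0 < ε
    rw [Real.dist_eq, sub_zero, abs_of_nonneg h4]
    linarith
  refine ⟨L, ?_, ?_, ?_, hLi, hLt, ?_, ?_⟩
  · simp only [hL, hD0, zero_div]
  · intro g; simp only [hL]; have := hDn 1 g; positivity
  · intro g
    have h1 := hLf g
    have h2 : (f g : ℝ) ≤ 1 := by exact_mod_cast hf_le g
    linarith
  · rw [continuous_iff_continuousAt]
    intro g
    have h3 : Tendsto (fun x => L (g⁻¹ * x)) (𝓝 g) (𝓝 0) := by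
      have h4 : Tendsto (fun x => g⁻¹ * x) (𝓝 g) (𝓝 1) := by
        have : Continuous (fun x => g⁻¹ * x) := by fun_prop
        have h := this.tendsto g
        simpa using h
      exact hL0.comp h4
    rw [ContinuousAt, tendsto_iff_dist_tendsto_zero]
    refine squeeze_zero (fun _ => dist_nonneg) (fun x => ?_) h3
    rw [Real.dist_eq, abs_le]
    constructor
    · have h5 := hLt x (x⁻¹ * g)
      rw [mul_inv_cancel_left] at h5
      have h6 := hLi (x⁻¹ * g)
      rw [mul_inv_rev, inv_inv] at h6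
      linarith
    · have h5 := hLt g (g⁻¹ * x)
      rw [mul_inv_cancel_left] at h5
      linarith
  · intro W hW
    obtain ⟨n, hn⟩ := hVb W hW
    refine ⟨(1 / 2) ^ n / 8, by positivity, fun g hg => hn ?_⟩
    by_contra hgn
    have h1 : (1 / 2) ^ n ≤ f g := hle_f.2 hgn
    have h2 : ((1 / 2 : ℝ)) ^ n ≤ f g := by
      have := NNReal.coe_le_coe.2 h1
      simpa using this
    have h3 := hfD 1 g
    rw [inv_one, one_mul] at h3
    simp only [hL] at hg
    linarith

end Pool.Agent.Helper68UH
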