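import Mathlib

/-! MP_8215f0_lc, module D2: Polish groups are Raikov complete (sequential form). -/

set_option autoImplicit false
open Filter Topology

namespace Pool.Agent.Helper68UH

/-- Module D2: Polish groups are Raikov complete (sequential form). -/
theorem raikov (G : Type) [TopologicalSpace G] [Group G] [IsTopologicalGroup G] [PolishSpace G]
    (g : ℕ → G)
    (h1 : Tendsto (fun p : ℕ × ℕ => (g p.1)⁻¹ * g p.2) atTop (𝓝 1))
    (h2 : Tendsto (fun p : ℕ × ℕ => g p.1 * (g p.2)⁻¹) atTop (𝓝 1)) :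
    ∃ h, Tendsto g atTop (𝓝 h) := by
  let _ := TopologicalSpace.upgradeIsCompletelyMetrizable G
  -- the good sets
  set U : ℕ → Set G := fun n => {h | ∃ B ∈ 𝓝 h, ∃ N : ℕ, ∀ k, N ≤ k → ∀ l, N ≤ l → ∀ x ∈ B, ∀ y ∈ B,
    dist (g k * x) (g l * y) ≤ 1 / ((n : ℝ) + 1)} with hU
  have hUo : ∀ n, IsOpen (U n) := by
    intro n
    rw [isOpen_iff_mem_nhds]
    rintro h ⟨B, hB, N, hN⟩
    obtain ⟨O, hOB, hO, hhO⟩ := mem_nhds_iff.1 hB
    refine mem_of_superset (hO.mem_nhds hhO) fun x hx => ?_
    exact ⟨B, mem_of_superset (hO.mem_nhds hx) hOB, N, hN⟩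
  have hUd : ∀ n, Dense (U n) := by
    intro n
    rw [dense_iff_inter_open]
    rintro W hW ⟨h0, hh0⟩
    -- `g l⁻¹ * g k * h0 ∈ W` for `k, l` large
    have e1 : Tendsto (fun p : ℕ × ℕ => (g p.1)⁻¹ * g p.2 * h0) atTop (𝓝 (1 * h0)) :=
      h1.mul_const h0
    rw [one_mul] at e1
    have e2 := e1.eventually (hW.mem_nhds hh0)
    rw [eventually_atTop] at e2
    obtain ⟨⟨a, b⟩, hab⟩ := e2
    -- fix `k`
    set k := max a b with hk
    -- a neighbourhood of `g k * h0` of small diameter
    have hpos : (0 : ℝ) < 1 / ((n : ℝ) + 1) / 2 := by positivity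
    have c1 : Tendsto (fun p : G × G => p.1 * (g k * h0) * p.2) (𝓝 (1, 1))
        (𝓝 (g k * h0)) := by
      have : Continuous (fun p : G × G => p.1 * (g k * h0) * p.2) := by fun_prop
      have h := this.tendsto (1, 1)
      simpa using h
    have c2 := c1.eventually (Metric.ball_mem_nhds (g k * h0) hpos)
    rw [nhds_prod_eq] at c2
    obtain ⟨A, hA, B, hB, hAB⟩ := eventually_prod_iff.1 c2
    -- choose `l`
    have e3 := h2.eventually hA
    rw [eventually_atTop] at e3
    obtain ⟨⟨a', b'⟩, hab'⟩ := e3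
    set l := max k (max a' b') with hl
    refine ⟨(g l)⁻¹ * g k * h0, ?_, ?_⟩
    · apply hab (l, k)
      constructor
      · change a ≤ l
        rw [hl, hk]; exact (le_max_left a b).trans (le_max_left _ _)
      · change b ≤ k
        exact le_max_right a b
    · refine ⟨(fun x => (g l)⁻¹ * g k * h0 * x) '' {x | B x}, ?_, l, ?_⟩
      · have h3 : Tendsto (fun x => ((g l)⁻¹ * g k * h0)⁻¹ * x) (𝓝 ((g l)⁻¹ * g k * h0)) (𝓝 1) := by
          have : Continuous (fun x => ((g l)⁻¹ * g k * h0)⁻¹ * x) := by fun_prop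
          have h := this.tendsto ((g l)⁻¹ * g k * h0)
          have e : ((g l)⁻¹ * g k * h0)⁻¹ * ((g l)⁻¹ * g k * h0) = 1 := inv_mul_cancel _
          rw [e] at h
          exact h
        have h4 := h3.eventually hB
        refine mem_of_superset h4 fun x hx => ?_
        exact ⟨((g l)⁻¹ * g k * h0)⁻¹ * x, hx, by group⟩
      · have key : ∀ m, l ≤ m → ∀ x, B x →
            dist (g m * ((g l)⁻¹ * g k * h0 * x)) (g k * h0) < 1 / ((n : ℝ) + 1) / 2 := by
          intro m hm x hx
          have h5 : A (g m * (g l)⁻¹) := by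
            apply hab' (m, l)
            constructor
            · change a' ≤ m
              exact ((le_max_left a' b').trans (le_max_right _ _)).trans hm
            · change b' ≤ l
              exact (le_max_right a' b').trans (le_max_right _ _)
          have h6 := hAB h5 hx
          have e : g m * ((g l)⁻¹ * g k * h0 * x) = g m * (g l)⁻¹ * (g k * h0) * x := by group
          rw [e]
          exact h6
        rintro m hm m' hm' _ ⟨x, hx, rfl⟩ _ ⟨y, hy, rfl⟩
        have h7 := key m hm x hx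
        have h8 := key m' hm' y hy
        have h9 := dist_triangle_right (g m * ((g l)⁻¹ * g k * h0 * x))
          (g m' * ((g l)⁻¹ * g k * h0 * y)) (g k * h0)
        linarith
  -- Baire
  have hdense := dense_iInter_of_isOpen_nat hUo hUd
  obtain ⟨h, hh⟩ := hdense.nonempty
  rw [Set.mem_iInter] at hh
  have hc : CauchySeq (fun k => g k * h) := by
    rw [Metric.cauchySeq_iff]
    intro ε hε
    obtain ⟨n, hn⟩ := exists_nat_one_div_lt hε
    obtain ⟨B, hB, N, hN⟩ := hh n
    refine ⟨N, fun k hk l hl => ?_⟩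
    have hhB : h ∈ B := mem_of_mem_nhds hB
    exact (hN k hk l hl h hhB h hhB).trans_lt hn
  obtain ⟨p, hp⟩ := cauchySeq_tendsto_of_complete hc
  refine ⟨p * h⁻¹, ?_⟩
  have := hp.mul_const h⁻¹
  simpa using this

end Pool.Agent.Helper68UH
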